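import Pool.Agent.Q4.Stab.Kill

/-!
# Approximate representations of the amalgam
-/

open Filter Topology ContinuousLinearMap

namespace Q4.Stab

/-- A representation by isometries is unitary. -/
noncomputable def unitaryRep {G : Type} [Group G] {E : Type} [NormedAddCommGroup E]
    [InnerProductSpace ℂ E] [CompleteSpace E] (ρ : G →* (E →L[ℂ] E))
    (h : ∀ g x, ‖ρ g x‖ = ‖x‖) : G →* unitary (E →L[ℂ] E) where
  toFun g := ⟨ρ g, by
    have h1 : adjoint (ρ g) ∘L ρ g = 1 :=
      (ContinuousLinearMap.norm_map_iff_adjoint_comp_self _).1 (h g)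
    have h2 : ρ g * ρ g⁻¹ = 1 := by rw [← map_mul, mul_inv_cancel, map_one]
    have h3 : star (ρ g) = ρ g⁻¹ := by
      calc star (ρ g) = (star (ρ g) * ρ g) * ρ g⁻¹ := by rw [mul_assoc, h2, mul_one]
        _ = ρ g⁻¹ := by
          rw [star_eq_adjoint]
          change (adjoint (ρ g) ∘L ρ g) * _ = _
          rw [h1, one_mul]
    rw [Unitary.mem_iff]
    refine ⟨h1, ?_⟩
    rw [h3, h2]⟩
  map_one' := Subtype.ext (map_one ρ)
  map_mul' a b := Subtype.ext (map_mul ρ a b)

/-- The sign character. -/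
noncomputable def sgn (b : ZMod 2) : ℂ := if b = 0 then 1 else -1

theorem zmod2 (b : ZMod 2) : b = 0 ∨ b = 1 := (by decide : ∀ b : ZMod 2, b = 0 ∨ b = 1) b

theorem sgn_zero : sgn 0 = 1 := if_pos rfl

theorem sgn_one : sgn 1 = -1 := if_neg one_ne_zero

theorem sgn_add (a b : ZMod 2) : sgn (a + b) = sgn a * sgn b := by
  rcases zmod2 a with rfl | rfl <;> rcases zmod2 b with rfl | rfl
  · simp [sgn_zero]
  · simp [sgn_zero]
  · simp [sgn_zero]
  · rw [show (1 : ZMod 2) + 1 = 0 from rfl, sgn_zero, sgn_one]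
    norm_num

theorem norm_sgn (a : ZMod 2) : ‖sgn a‖ = 1 := by
  rcases zmod2 a with rfl | rfl
  · rw [sgn_zero, norm_one]
  · rw [sgn_one, norm_neg, norm_one]

/-- The dimension of the approximate representations. -/
def dim (m : ℕ) : ℕ := Fintype.card (Fin m → ZMod 2)

theorem dim_pos (m : ℕ) : 0 < dim m := Fintype.card_pos

/-- The labelling of a basis. -/
noncomputable def lab (m : ℕ) : (Fin m → ZMod 2) ≃ Fin (dim m) := Fintype.equivFin _

variable (w : ℕ → ZMod 2) (m : ℕ)

/-- The phase. -/
def phase (a : Heis) (s : Fin m → ZMod 2) : ZMod 2 := ∑ j : Fin m, w j * (a.z j + a.x j * s j)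

/-- The shift. -/
def shift (a : Heis) (s : Fin m → ZMod 2) : Fin m → ZMod 2 := fun j => s j + w j * a.y j

theorem w_sq (j : ℕ) : w j * w j = w j := by
  rcases zmod2 (w j) with h | h <;> rw [h] <;> rfl

theorem phase_mul (a b : Heis) (s : Fin m → ZMod 2) :
    phase w m (a * b) s = phase w m a s + phase w m b (shift w m a s) := by
  rw [phase, phase, phase, ← Finset.sum_add_distrib]
  refine Finset.sum_congr rfl fun j _ => ?_
  rw [Heis.mul_z, Heis.mul_x, shift, Finsupp.add_apply, Finsupp.add_apply, Finsupp.mul_apply,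
    Finsupp.add_apply]
  linear_combination (-(b.x j * a.y j)) * w_sq w j

theorem shift_mul (a b : Heis) (s : Fin m → ZMod 2) :
    shift w m (a * b) s = shift w m b (shift w m a s) := by
  funext j
  rw [shift, shift, shift, Heis.mul_y, Finsupp.add_apply]
  ring

theorem phase_one (s : Fin m → ZMod 2) : phase w m 1 s = 0 := by
  rw [phase]
  refine Finset.sum_eq_zero fun j _ => ?_
  simp

theorem shift_one (s : Fin m → ZMod 2) : shift w m 1 s = s := by
  funext j
  simp [shift]

/-- The representation attached to a weight. -/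
noncomputable def rep₀ : Heis →* (EuclideanSpace ℂ (Fin (dim m)) →L[ℂ]
    EuclideanSpace ℂ (Fin (dim m))) where
  toFun a := LinearMap.toContinuousLinearMap
    { toFun := fun f => WithLp.toLp 2 fun i =>
        sgn (phase w m a ((lab m).symm i)) * f (lab m (shift w m a ((lab m).symm i)))
      map_add' := fun f g => by
        ext i
        simp [mul_add]
      map_smul' := fun c f => by
        ext i
        simp only [PiLp.smul_apply, smul_eq_mul, RingHom.id_apply]
        ring }
  map_one' := by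
    ext f i
    change sgn (phase w m 1 ((lab m).symm i)) * f (lab m (shift w m 1 ((lab m).symm i))) = f i
    rw [phase_one, shift_one, sgn_zero, one_mul, Equiv.apply_symm_apply]
  map_mul' a b := by
    ext f i
    change sgn (phase w m (a * b) ((lab m).symm i)) *
        f (lab m (shift w m (a * b) ((lab m).symm i))) =
      sgn (phase w m a ((lab m).symm i)) *
        (sgn (phase w m b ((lab m).symm (lab m (shift w m a ((lab m).symm i))))) *
          f (lab m (shift w m b ((lab m).symm (lab m (shift w m a ((lab m).symm i)))))))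
    rw [Equiv.symm_apply_apply, phase_mul, shift_mul, sgn_add, mul_assoc]

theorem rep₀_apply (a : Heis) (f : EuclideanSpace ℂ (Fin (dim m))) (i : Fin (dim m)) :
    rep₀ w m a f i = sgn (phase w m a ((lab m).symm i)) *
      f (lab m (shift w m a ((lab m).symm i))) := rfl

theorem rep₀_norm (a : Heis) (f : EuclideanSpace ℂ (Fin (dim m))) : ‖rep₀ w m a f‖ = ‖f‖ := by
  have h1 : ‖rep₀ w m a f‖ ^ 2 = ‖f‖ ^ 2 := by
    rw [EuclideanSpace.norm_sq_eq, EuclideanSpace.norm_sq_eq]
    have hinv : Function.Involutive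
        (fun i : Fin (dim m) => lab m (shift w m a ((lab m).symm i))) := by
      intro i
      simp only [Equiv.symm_apply_apply]
      rw [← Equiv.eq_symm_apply]
      funext j
      rw [shift, shift, add_assoc, CharTwo.add_self_eq_zero, add_zero]
    refine Fintype.sum_bijective _ hinv.bijective _ _ fun i => ?_
    rw [rep₀_apply, norm_mul, norm_sgn, one_mul]
  exact (pow_left_inj₀ (norm_nonneg _) (norm_nonneg _) two_ne_zero).1 h1

/-- The unitary representation attached to a weight. -/
noncomputable def rep : Heis →* U (dim m) := unitaryRep (rep₀ w m) (rep₀_norm w m)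

theorem rep_central (z : R) : (rep w m ⟨0, 0, z⟩ : EuclideanSpace ℂ (Fin (dim m)) →L[ℂ]
    EuclideanSpace ℂ (Fin (dim m))) = sgn (∑ j : Fin m, w j * z j) • 1 := by
  ext f i
  change rep₀ w m ⟨0, 0, z⟩ f i = sgn (∑ j : Fin m, w j * z j) * f i
  rw [rep₀_apply]
  have h1 : ∀ s, phase w m ⟨0, 0, z⟩ s = ∑ j : Fin m, w j * z j := by
    intro s
    rw [phase]
    refine Finset.sum_congr rfl fun j _ => ?_
    simp
  have h2 : ∀ s, shift w m ⟨0, 0, z⟩ s = s := by
    intro s
    funext j
    simp [shift]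
  rw [h1, h2, Equiv.apply_symm_apply]

/-- The total sum. -/
noncomputable def tot : R →ₗ[ZMod 2] ZMod 2 := Finsupp.linearCombination (ZMod 2) fun _ => 1

theorem tot_e (j : ℕ) : tot (e j) = 1 := by
  rw [tot, e, Finsupp.linearCombination_single, one_smul]

theorem tot_T (a : R) : tot (T a) = a 0 := by
  have h : tot ∘ₗ T = Finsupp.lapply 0 := by
    refine Finsupp.lhom_ext' fun j => LinearMap.ext_ring ?_
    change tot (T (e j)) = e j 0
    rw [T_e, tcol]
    cases j with
    | zero => rw [if_pos rfl, tot_e, e, Finsupp.single_eq_same]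
    | succ j =>
      rw [if_neg (Nat.succ_ne_zero j), map_add, tot_e, tot_e, e,
        Finsupp.single_eq_of_ne (Nat.succ_ne_zero j).symm]
      rfl
  exact LinearMap.congr_fun h a

theorem eventually_sum (a : R) : ∀ᶠ m in atTop, ∑ j : Fin m, a j = tot a := by
  filter_upwards [eventually_ge_atTop (a.support.sup id + 1)] with m hm
  rw [Fin.sum_univ_eq_sum_range (fun j => a j) m, tot, Finsupp.linearCombination_apply,
    Finsupp.sum]
  simp only [smul_eq_mul, mul_one]
  symm
  refine Finset.sum_subset (fun i hi => ?_) fun i _ hi => Finsupp.notMem_support_iff.1 hi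
  have h2 : i ≤ a.support.sup id := Finset.le_sup (f := id) hi
  rw [Finset.mem_range]
  omega

/-- The weight of the first factor. -/
def w₁ : ℕ → ZMod 2 := fun _ => 1

/-- The weight of the second factor. -/
def w₂ : ℕ → ZMod 2 := fun j => if j = 0 then 1 else 0

theorem agree (h : H) : ∀ᶠ m in atTop, rep w₁ m (ι₁ h) = rep w₂ m (ι₂ h) := by
  filter_upwards [eventually_sum (T h.toAdd), eventually_ge_atTop 1] with m hm hm1
  apply Subtype.ext
  change (rep w₁ m ⟨0, 0, T h.toAdd⟩ : EuclideanSpace ℂ (Fin (dim m)) →L[ℂ]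
    EuclideanSpace ℂ (Fin (dim m))) = (rep w₂ m ⟨0, 0, h.toAdd⟩ :
    EuclideanSpace ℂ (Fin (dim m)) →L[ℂ] EuclideanSpace ℂ (Fin (dim m)))
  rw [rep_central, rep_central]
  congr 2
  have h1 : ∑ j : Fin m, w₁ j * (T h.toAdd) j = h.toAdd 0 := by
    rw [← tot_T, ← hm]
    refine Finset.sum_congr rfl fun j _ => ?_
    rw [w₁, one_mul]
  rw [h1]
  obtain ⟨m, rfl⟩ := Nat.exists_eq_succ_of_ne_zero (Nat.one_le_iff_ne_zero.1 hm1)
  rw [Fin.sum_univ_succ, Finset.sum_eq_zero]
  · simp [w₂]
  · intro i _
    simp [w₂]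

/-- The representations of the free product. -/
noncomputable def lift (m : ℕ) : Monoid.Coprod Heis Heis →* U (dim m) :=
  Monoid.Coprod.lift (rep w₁ m) (rep w₂ m)

theorem eventually_lift (v : Monoid.Coprod Heis Heis)
    (hv : v ∈ Subgroup.normalClosure (Set.range fun h : H =>
      (Monoid.Coprod.inl (ι₁ h) * (Monoid.Coprod.inr (ι₂ h))⁻¹ : Monoid.Coprod Heis Heis))) :
    ∀ᶠ m in atTop, lift m v = 1 := by
  let K : Subgroup (Monoid.Coprod Heis Heis) :=
    { carrier := {v | ∀ᶠ m in atTop, lift m v = 1}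
      one_mem' := Eventually.of_forall fun m => map_one _
      mul_mem' := by
        intro a b ha hb
        rw [Set.mem_ofPred_eq] at ha hb ⊢
        filter_upwards [ha, hb] with m h1 h2
        rw [map_mul, h1, h2, one_mul]
      inv_mem' := by
        intro a ha
        rw [Set.mem_ofPred_eq] at ha ⊢
        filter_upwards [ha] with m h1
        rw [map_inv, h1, inv_one] }
  have hK : K.Normal := by
    refine ⟨fun a ha g => ?_⟩
    change ∀ᶠ m in atTop, lift m a = 1 at ha
    change ∀ᶠ m in atTop, lift m (g * a * g⁻¹) = 1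
    filter_upwards [ha] with m h1
    rw [map_mul, map_mul, h1, mul_one, map_inv, mul_inv_cancel]
  have hle : Subgroup.normalClosure (Set.range fun h : H =>
      (Monoid.Coprod.inl (ι₁ h) * (Monoid.Coprod.inr (ι₂ h))⁻¹ : Monoid.Coprod Heis Heis)) ≤ K := by
    refine Subgroup.normalClosure_le_normal ?_
    rintro _ ⟨h, rfl⟩
    change ∀ᶠ m in atTop, lift m _ = 1
    filter_upwards [agree h] with m hm
    rw [map_mul, map_inv, lift, Monoid.Coprod.lift_apply_inl, Monoid.Coprod.lift_apply_inr, hm,
      mul_inv_cancel]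
  exact hle hv

/-- The approximate representations of the amalgam. -/
noncomputable def φ (m : ℕ) (a : A) : U (dim m) := lift m (Quotient.out a)

theorem eventually_φ (v : Monoid.Coprod Heis Heis) : ∀ᶠ m in atTop, φ m (v : A) = lift m v := by
  have h1 : (Quotient.out (v : A))⁻¹ * v ∈ Subgroup.normalClosure (Set.range fun h : H =>
      (Monoid.Coprod.inl (ι₁ h) * (Monoid.Coprod.inr (ι₂ h))⁻¹ : Monoid.Coprod Heis Heis)) :=
    QuotientGroup.eq.1 (QuotientGroup.out_eq' _)
  filter_upwards [eventually_lift _ h1] with m hm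
  rw [map_mul, map_inv] at hm
  exact (inv_mul_eq_one.1 hm)

theorem φ_mul (a b : A) : ∀ᶠ m in atTop, φ m (a * b) = φ m a * φ m b := by
  have h1 : a * b = ((Quotient.out a * Quotient.out b : Monoid.Coprod Heis Heis) : A) := by
    rw [QuotientGroup.mk_mul, QuotientGroup.out_eq', QuotientGroup.out_eq']
  filter_upwards [eventually_φ (Quotient.out a * Quotient.out b)] with m hm
  rw [h1, hm, map_mul]
  rfl

theorem not_stable : ¬ OperatorNormStable A := by
  intro hst
  obtain ⟨ψ, hψ⟩ := hst dim dim_pos φ (by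
    intro g h
    refine tendsto_const_nhds.congr' ?_
    filter_upwards [φ_mul g h] with m hm
    rw [hm, opDist, sub_self, norm_zero])
  set c : A := f₁ (ι₁ (Multiplicative.ofAdd (e 0))) with hc
  have h1 := hψ c
  have h2 : ∀ m, ψ m c = 1 := by
    intro m
    let r : U (dim m) →* Module.End ℂ (EuclideanSpace ℂ (Fin (dim m))) :=
      { toFun := fun u => ((u : EuclideanSpace ℂ (Fin (dim m)) →L[ℂ]
          EuclideanSpace ℂ (Fin (dim m))) : EuclideanSpace ℂ (Fin (dim m)) →ₗ[ℂ]
          EuclideanSpace ℂ (Fin (dim m)))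
        map_one' := rfl
        map_mul' := fun a b => rfl }
    have h3 := kills (EuclideanSpace ℂ (Fin (dim m))) (r.comp (ψ m)) (Multiplicative.ofAdd (e 0))
    apply Subtype.ext
    apply ContinuousLinearMap.ext
    intro x
    exact LinearMap.congr_fun h3 x
  have h4 : ∀ᶠ m in atTop, opDist (φ m c) (ψ m c) = 2 := by
    filter_upwards [eventually_φ (Monoid.Coprod.inl (ι₁ (Multiplicative.ofAdd (e 0)))),
      eventually_sum (T (e 0))] with m hm hm2
    have h5 : φ m c = rep w₁ m (ι₁ (Multiplicative.ofAdd (e 0))) := by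
      have : φ m c = lift m (Monoid.Coprod.inl (ι₁ (Multiplicative.ofAdd (e 0)))) := hm
      rw [this, lift, Monoid.Coprod.lift_apply_inl]
    rw [h2, h5, opDist]
    change ‖(rep w₁ m ⟨0, 0, T (e 0)⟩ : EuclideanSpace ℂ (Fin (dim m)) →L[ℂ]
      EuclideanSpace ℂ (Fin (dim m))) - 1‖ = 2
    rw [rep_central]
    have h6 : ∑ j : Fin m, w₁ j * (T (e 0)) j = 1 := by
      have : ∑ j : Fin m, w₁ j * (T (e 0)) j = ∑ j : Fin m, (T (e 0)) j :=
        Finset.sum_congr rfl fun j _ => by rw [w₁, one_mul]
      rw [this, hm2, tot_T, e, Finsupp.single_eq_same]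
    rw [h6, sgn_one]
    have h7 : ((-1 : ℂ) • (1 : EuclideanSpace ℂ (Fin (dim m)) →L[ℂ]
        EuclideanSpace ℂ (Fin (dim m)))) - 1 = (-2 : ℂ) • 1 := by
      ext f i
      change (-1 : ℂ) * f i - f i = (-2 : ℂ) * f i
      ring
    rw [h7, norm_smul]
    have : Nonempty (Fin (dim m)) := ⟨⟨0, dim_pos m⟩⟩
    rw [norm_one, mul_one, norm_neg]
    norm_num
  have h8 : Tendsto (fun m => opDist (φ m c) (ψ m c)) atTop (𝓝 2) :=
    tendsto_const_nhds.congr' (h4.mono fun m hm => hm.symm)
  exact two_ne_zero (tendsto_nhds_unique h8 h1)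

end Q4.Stab
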