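import Mathlib

/-!
# Operator norm stable groups and amalgamated free products
-/

open Filter Topology

namespace Q4.Stab

/-- The unitary group `U(k)`: the unitary operators on the Hilbert space `ℂ^k`. -/
abbrev U (k : ℕ) : Type :=
  unitary (EuclideanSpace ℂ (Fin k) →L[ℂ] EuclideanSpace ℂ (Fin k))

/-- The operator norm distance of two unitaries of size `k`. -/
noncomputable def opDist {k : ℕ} (u v : U k) : ℝ :=
  ‖(u : EuclideanSpace ℂ (Fin k) →L[ℂ] EuclideanSpace ℂ (Fin k)) -
    (v : EuclideanSpace ℂ (Fin k) →L[ℂ] EuclideanSpace ℂ (Fin k))‖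

/-- Operator norm stability (matricial stability) of a group. -/
def OperatorNormStable (G : Type) [Group G] : Prop :=
  ∀ k : ℕ → ℕ, (∀ n, 0 < k n) → ∀ φ : ∀ n, G → U (k n),
    (∀ g h : G, Tendsto (fun n => opDist (φ n (g * h)) (φ n g * φ n h)) atTop (𝓝 0)) →
      ∃ ψ : ∀ n, G →* U (k n),
        ∀ g : G, Tendsto (fun n => opDist (φ n g) (ψ n g)) atTop (𝓝 0)

/-- The amalgamated free product `G₁ *_H G₂` of the diagram `G₁ ← H → G₂`: the quotient of the
free product by the normal closure of the elements identifying the two images of `H`. -/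
abbrev Amalgam {G₁ G₂ H : Type} [Group G₁] [Group G₂] [Group H] (i₁ : H →* G₁) (i₂ : H →* G₂) :
    Type :=
  Monoid.Coprod G₁ G₂ ⧸ Subgroup.normalClosure
    (Set.range fun h : H => (Monoid.Coprod.inl (i₁ h) * (Monoid.Coprod.inr (i₂ h))⁻¹ :
      Monoid.Coprod G₁ G₂))

end Q4.Stab
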