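import Pool.Agent.Q4.Stab.Perturb

/-!
# From a dilation to a genuine representation
-/

open ContinuousLinearMap

namespace Q4.Stab

variable {E F : Type} [NormedAddCommGroup E] [InnerProductSpace ℂ E] [CompleteSpace E]
  [NormedAddCommGroup F] [InnerProductSpace ℂ F] [CompleteSpace F]
  {Γ : Type} [Group Γ] [Fintype Γ]

theorem norm_le_one_of_isometry {V : E →L[ℂ] F} (hV : adjoint V ∘L V = 1) : ‖V‖ ≤ 1 := by
  have h := ContinuousLinearMap.norm_adjoint_comp_self V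
  rw [hV] at h
  have h1 : ‖(1 : E →L[ℂ] E)‖ ≤ 1 := ContinuousLinearMap.norm_id_le
  nlinarith [norm_nonneg V]

theorem norm_unitary_le (u : unitary (F →L[ℂ] F)) : ‖(u : F →L[ℂ] F)‖ ≤ 1 :=
  norm_le_one_of_isometry (V := (u : F →L[ℂ] F)) u.2.1

theorem rep_of_dilation (V : E →L[ℂ] F) (hV : adjoint V ∘L V = 1)
    (lam : Γ →* unitary (F →L[ℂ] F)) (φ : Γ → unitary (E →L[ℂ] E)) (δ : ℝ) (hδ : δ ≤ 1 / 32)
    (h : ∀ g, ‖(lam g : F →L[ℂ] F) ∘L V - V ∘L (φ g : E →L[ℂ] E)‖ ≤ δ) :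
    ∃ ψ : Γ →* unitary (E →L[ℂ] E), ∀ g, ‖(ψ g : E →L[ℂ] E) - φ g‖ ≤ 61 * δ := by
  have hδ0 : 0 ≤ δ := (norm_nonneg _).trans (h 1)
  have hVn := norm_le_one_of_isometry hV
  have hVn' : ‖adjoint V‖ ≤ 1 := by rw [LinearIsometryEquiv.norm_map]; exact hVn
  set P : F →L[ℂ] F := V ∘L adjoint V with hP
  have hPs : star P = P := by
    rw [star_eq_adjoint, hP, adjoint_comp, adjoint_adjoint]
  have hPV : P ∘L V = V := by
    rw [hP, ContinuousLinearMap.comp_assoc, hV]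
    rfl
  have hPP : P * P = P := by
    change P ∘L P = P
    rw [hP, ← ContinuousLinearMap.comp_assoc, ← hP, hPV]
  have hPn : ‖P‖ ≤ 1 := (opNorm_comp_le _ _).trans (by
    have := norm_nonneg V; have := norm_nonneg (adjoint V); nlinarith)
  -- `λ(g) P λ(g)*` is close to `P`
  have hconj : ∀ g, ‖(lam g : F →L[ℂ] F) * P * star (lam g : F →L[ℂ] F) - P‖ ≤ 2 * δ := by
    intro g
    set L : F →L[ℂ] F := (lam g : F →L[ℂ] F) with hL
    set f : E →L[ℂ] E := (φ g : E →L[ℂ] E) with hf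
    have hff : f ∘L adjoint f = 1 := (φ g).2.2
    have hLn : ‖L‖ ≤ 1 := norm_unitary_le _
    have hfn : ‖f‖ ≤ 1 := norm_unitary_le _
    set R : E →L[ℂ] F := L ∘L V - V ∘L f with hR
    have hRn : ‖R‖ ≤ δ := h g
    have hRn' : ‖adjoint R‖ ≤ δ := by rw [LinearIsometryEquiv.norm_map]; exact hRn
    have h1 : L * P * star L - P = (V ∘L f) ∘L adjoint R + R ∘L adjoint (L ∘L V) := by
      have e1 : L * P * star L = (L ∘L V) ∘L adjoint (L ∘L V) := by
        rw [star_eq_adjoint, adjoint_comp]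
        rfl
      have e2 : P = (V ∘L f) ∘L adjoint (V ∘L f) := by
        rw [adjoint_comp, ContinuousLinearMap.comp_assoc, ← ContinuousLinearMap.comp_assoc f, hff]
        rfl
      rw [e1, e2, hR, map_sub, ContinuousLinearMap.comp_sub, ContinuousLinearMap.sub_comp]
      abel
    rw [h1]
    have h2 : ‖(V ∘L f) ∘L adjoint R‖ ≤ δ := by
      refine (opNorm_comp_le _ _).trans ?_
      have h3 : ‖V ∘L f‖ ≤ 1 := (opNorm_comp_le _ _).trans (by
        have := norm_nonneg V; have := norm_nonneg f; nlinarith)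
      have := norm_nonneg (V ∘L f)
      nlinarith [norm_nonneg (adjoint R)]
    have h3 : ‖R ∘L adjoint (L ∘L V)‖ ≤ δ := by
      refine (opNorm_comp_le _ _).trans ?_
      have h3 : ‖adjoint (L ∘L V)‖ ≤ 1 := by
        rw [LinearIsometryEquiv.norm_map]
        exact (opNorm_comp_le _ _).trans (by
          have := norm_nonneg V; have := norm_nonneg L; nlinarith)
      have := norm_nonneg R
      nlinarith [norm_nonneg (adjoint (L ∘L V))]
    calc _ ≤ ‖(V ∘L f) ∘L adjoint R‖ + ‖R ∘L adjoint (L ∘L V)‖ := norm_add_le _ _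
      _ ≤ 2 * δ := by linarith
  -- the average of the conjugates
  have hcard : (0 : ℝ) < Fintype.card Γ := by exact_mod_cast Fintype.card_pos
  set N : ℝ := (Fintype.card Γ : ℝ)⁻¹ with hN
  have hNpos : 0 < N := inv_pos.2 hcard
  have hNcard : N * Fintype.card Γ = 1 := inv_mul_cancel₀ hcard.ne'
  set A : F →L[ℂ] F := N • ∑ g, (lam g : F →L[ℂ] F) * P * star (lam g : F →L[ℂ] F) with hA
  have hAs : IsSelfAdjoint A := by
    rw [hA, IsSelfAdjoint, star_smul, star_sum]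
    congr 1
    refine Finset.sum_congr rfl fun g _ => ?_
    rw [star_mul, star_mul, star_star, hPs, mul_assoc]
  have hAP : ‖A - P‖ ≤ 2 * δ := by
    have e1 : A - P = N • ∑ g, ((lam g : F →L[ℂ] F) * P * star (lam g : F →L[ℂ] F) - P) := by
      rw [Finset.sum_sub_distrib, smul_sub, ← hA, Finset.sum_const, Finset.card_univ,
        ← Nat.cast_smul_eq_nsmul ℝ, smul_smul, hNcard, one_smul]
    rw [e1, norm_smul, Real.norm_of_nonneg hNpos.le]
    calc N * ‖∑ g, ((lam g : F →L[ℂ] F) * P * star (lam g : F →L[ℂ] F) - P)‖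
        ≤ N * ∑ g : Γ, 2 * δ := by
          gcongr
          exact (norm_sum_le _ _).trans (Finset.sum_le_sum fun g _ => hconj g)
      _ = 2 * δ := by
          rw [Finset.sum_const, Finset.card_univ, nsmul_eq_mul, ← mul_assoc, hNcard, one_mul]
  have hAn : ‖A‖ ≤ 1 := by
    rw [hA, norm_smul, Real.norm_of_nonneg hNpos.le]
    calc N * ‖∑ g, ((lam g : F →L[ℂ] F) * P * star (lam g : F →L[ℂ] F))‖
        ≤ N * ∑ g : Γ, 1 := by
          gcongr
          refine (norm_sum_le _ _).trans (Finset.sum_le_sum fun g _ => ?_)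
          have h1 := norm_unitary_le (lam g)
          have h2 : ‖star (lam g : F →L[ℂ] F)‖ ≤ 1 := by rw [norm_star]; exact h1
          refine (norm_mul_le _ _).trans ?_
          have h3 : ‖(lam g : F →L[ℂ] F) * P‖ ≤ 1 := (norm_mul_le _ _).trans (by
            have := norm_nonneg (lam g : F →L[ℂ] F); have := norm_nonneg P; nlinarith)
          have := norm_nonneg ((lam g : F →L[ℂ] F) * P)
          have := norm_nonneg (star (lam g : F →L[ℂ] F))
          nlinarith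
      _ = 1 := by rw [Finset.sum_const, Finset.card_univ, nsmul_eq_mul, mul_one, hNcard]
  have hAA : ‖A ^ 2 - A‖ ≤ 6 * δ := by
    have e1 : A ^ 2 - A = (A - P) * A + P * (A - P) - (A - P) := by
      rw [pow_two, sub_mul, mul_sub, hPP]
      abel
    rw [e1]
    have h1 : ‖(A - P) * A‖ ≤ 2 * δ := (norm_mul_le _ _).trans (by
      have := norm_nonneg A; have := norm_nonneg (A - P); nlinarith)
    have h2 : ‖P * (A - P)‖ ≤ 2 * δ := (norm_mul_le _ _).trans (by
      have := norm_nonneg P; have := norm_nonneg (A - P); nlinarith)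
    calc _ ≤ ‖(A - P) * A + P * (A - P)‖ + ‖A - P‖ := norm_sub_le _ _
      _ ≤ ‖(A - P) * A‖ + ‖P * (A - P)‖ + ‖A - P‖ := by gcongr; exact norm_add_le _ _
      _ ≤ 6 * δ := by linarith
  have hAcomm : ∀ k, Commute A (lam k : F →L[ℂ] F) := by
    intro k
    have e1 : (lam k : F →L[ℂ] F) * A * star (lam k : F →L[ℂ] F) = A := by
      rw [hA, mul_smul_comm, smul_mul_assoc, Finset.mul_sum, Finset.sum_mul]
      congr 1
      refine Fintype.sum_equiv (Equiv.mulLeft k) _ _ fun g => ?_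
      rw [Equiv.coe_mulLeft, map_mul]
      push_cast
      rw [star_mul]
      noncomm_ring
    have e2 : star (lam k : F →L[ℂ] F) * (lam k : F →L[ℂ] F) = 1 := (lam k).2.1
    calc A * (lam k : F →L[ℂ] F) =
        (lam k : F →L[ℂ] F) * A * (star (lam k : F →L[ℂ] F) * (lam k : F →L[ℂ] F)) := by
          conv_lhs => rw [← e1]
          noncomm_ring
      _ = (lam k : F →L[ℂ] F) * A := by rw [e2, mul_one]
  obtain ⟨Q, hQs, hQQ, hQA, hQcomm⟩ := exists_projection A hAs (6 * δ) (by linarith) hAA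
  have hQP : ‖Q - P‖ ≤ 10 * δ := by
    calc ‖Q - P‖ = ‖(Q - A) + (A - P)‖ := by congr 1; abel
      _ ≤ ‖Q - A‖ + ‖A - P‖ := norm_add_le _ _
      _ ≤ 10 * δ := by linarith
  have hQlam : ∀ k, Commute Q (lam k : F →L[ℂ] F) := fun k => hQcomm _ (hAcomm k)
  have hQn : ‖Q‖ ≤ 1 := by
    have h1 : ‖Q‖ * ‖Q‖ = ‖Q‖ := by
      rw [← CStarRing.norm_star_mul_self (x := Q), hQs.star_eq, hQQ]
    nlinarith [norm_nonneg Q]
  -- the compression of `Q`
  set B : E →L[ℂ] E := adjoint V ∘L (Q ∘L V) with hB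
  have hBs : IsSelfAdjoint B := by
    rw [IsSelfAdjoint, star_eq_adjoint, hB, adjoint_comp, adjoint_comp, adjoint_adjoint,
      ← star_eq_adjoint Q, hQs.star_eq, ContinuousLinearMap.comp_assoc]
  have hB1 : ‖B - 1‖ ≤ 10 * δ := by
    have e1 : B - 1 = adjoint V ∘L ((Q - P) ∘L V) := by
      rw [ContinuousLinearMap.sub_comp, hPV, ContinuousLinearMap.comp_sub, hV]
    rw [e1]
    refine (opNorm_comp_le _ _).trans ?_
    have h1 : ‖(Q - P) ∘L V‖ ≤ 10 * δ := (opNorm_comp_le _ _).trans (by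
      have := norm_nonneg V; have := norm_nonneg (Q - P); nlinarith)
    have := norm_nonneg ((Q - P) ∘L V)
    nlinarith [norm_nonneg (adjoint V)]
  obtain ⟨S, hSs, hSBS, hSSB, hS1⟩ := exists_invSqrt B hBs (10 * δ) (by linarith) hB1
  -- the isometry onto the range of `Q`
  set W : E →L[ℂ] F := Q ∘L (V ∘L S) with hW
  have hadjW : adjoint W = S ∘L (adjoint V ∘L Q) := by
    rw [hW, adjoint_comp, adjoint_comp, ← star_eq_adjoint Q, hQs.star_eq, ← star_eq_adjoint S,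
      hSs.star_eq, ContinuousLinearMap.comp_assoc]
  have hWW : adjoint W ∘L W = 1 := by
    rw [hadjW, hW]
    have hQQ' : Q ∘L Q = Q := hQQ
    calc (S ∘L (adjoint V ∘L Q)) ∘L (Q ∘L (V ∘L S))
        = S ∘L (adjoint V ∘L ((Q ∘L Q) ∘L V)) ∘L S := by
          simp only [ContinuousLinearMap.comp_assoc]
      _ = S * B * S := by rw [hQQ']; rfl
      _ = 1 := hSBS
  have hQW : Q ∘L W = W := by
    rw [hW, ← ContinuousLinearMap.comp_assoc]
    have hQQ' : Q ∘L Q = Q := hQQ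
    rw [hQQ']
  have hWn : ‖W‖ ≤ 1 := norm_le_one_of_isometry hWW
  have hWn' : ‖adjoint W‖ ≤ 1 := by rw [LinearIsometryEquiv.norm_map]; exact hWn
  -- the range projection of `W` is `Q`
  have hWWQ : W ∘L adjoint W = Q := by
    set D : F →L[ℂ] F := Q - W ∘L adjoint W with hD
    have hDV : D ∘L V = 0 := by
      have e1 : (W ∘L adjoint W) ∘L V = Q ∘L V := by
        rw [hadjW, hW]
        calc ((Q ∘L (V ∘L S)) ∘L (S ∘L (adjoint V ∘L Q))) ∘L V
            = Q ∘L (V ∘L (S ∘L (S ∘L (adjoint V ∘L (Q ∘L V))))) := by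
              simp only [ContinuousLinearMap.comp_assoc]
          _ = Q ∘L (V ∘L (S * (S * B))) := rfl
          _ = Q ∘L V := by rw [hSSB]; rfl
      rw [hD, ContinuousLinearMap.sub_comp, e1, sub_self]
    have hDQ : D * Q = D := by
      rw [hD, sub_mul, hQQ]
      congr 1
      change (W ∘L adjoint W) ∘L Q = W ∘L adjoint W
      rw [ContinuousLinearMap.comp_assoc]
      congr 1
      have := congrArg adjoint hQW
      rwa [adjoint_comp, ← star_eq_adjoint Q, hQs.star_eq] at this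
    have hDP : D * P = 0 := by
      change D ∘L (V ∘L adjoint V) = 0
      rw [← ContinuousLinearMap.comp_assoc, hDV, ContinuousLinearMap.zero_comp]
    have hD2 : D = D * (Q - P) := by rw [mul_sub, hDQ, hDP, sub_zero]
    have hDn : ‖D‖ ≤ ‖D‖ * (10 * δ) := by
      calc ‖D‖ = ‖D * (Q - P)‖ := by rw [← hD2]
        _ ≤ ‖D‖ * ‖Q - P‖ := norm_mul_le _ _
        _ ≤ ‖D‖ * (10 * δ) := by gcongr
    have hD0 : ‖D‖ = 0 := by nlinarith [norm_nonneg D]
    have := norm_eq_zero.1 hD0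
    rw [hD, sub_eq_zero] at this
    exact this.symm
  -- the representation
  let ψ₀ : Γ → (E →L[ℂ] E) := fun g => adjoint W ∘L ((lam g : F →L[ℂ] F) ∘L W)
  have hmul : ∀ g k, ψ₀ (g * k) = ψ₀ g * ψ₀ k := by
    intro g k
    have e1 : (lam (g * k) : F →L[ℂ] F) = (lam g : F →L[ℂ] F) ∘L (lam k : F →L[ℂ] F) := by
      rw [map_mul]
      rfl
    change adjoint W ∘L ((lam (g * k) : F →L[ℂ] F) ∘L W) =
      (adjoint W ∘L ((lam g : F →L[ℂ] F) ∘L W)) ∘L (adjoint W ∘L ((lam k : F →L[ℂ] F) ∘L W))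
    have e2 : (lam k : F →L[ℂ] F) ∘L Q = Q ∘L (lam k : F →L[ℂ] F) := (hQlam k).eq.symm
    calc adjoint W ∘L ((lam (g * k) : F →L[ℂ] F) ∘L W)
        = adjoint W ∘L ((lam g : F →L[ℂ] F) ∘L (((lam k : F →L[ℂ] F) ∘L Q) ∘L W)) := by
          rw [e1, ContinuousLinearMap.comp_assoc (lam k : F →L[ℂ] F) Q W, hQW,
            ContinuousLinearMap.comp_assoc]
      _ = adjoint W ∘L ((lam g : F →L[ℂ] F) ∘L ((W ∘L adjoint W) ∘L
            ((lam k : F →L[ℂ] F) ∘L W))) := by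
          rw [e2, hWWQ, ContinuousLinearMap.comp_assoc]
      _ = _ := by simp only [ContinuousLinearMap.comp_assoc]
  have hone : ψ₀ 1 = 1 := by
    change adjoint W ∘L ((lam 1 : F →L[ℂ] F) ∘L W) = 1
    rw [map_one, ← hWW]
    rfl
  have hstar : ∀ g, star (ψ₀ g) = ψ₀ g⁻¹ := by
    intro g
    change star (adjoint W ∘L ((lam g : F →L[ℂ] F) ∘L W)) =
      adjoint W ∘L ((lam g⁻¹ : F →L[ℂ] F) ∘L W)
    have e1 : (lam g⁻¹ : F →L[ℂ] F) = adjoint (lam g : F →L[ℂ] F) := by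
      rw [map_inv, ← star_eq_adjoint]
      rfl
    rw [star_eq_adjoint, adjoint_comp, adjoint_comp, adjoint_adjoint, e1,
      ContinuousLinearMap.comp_assoc]
  let ψ : Γ →* unitary (E →L[ℂ] E) :=
    { toFun := fun g => ⟨ψ₀ g, by
        rw [Unitary.mem_iff, hstar, ← hmul, ← hmul, inv_mul_cancel, mul_inv_cancel, hone]
        exact ⟨rfl, rfl⟩⟩
      map_one' := Subtype.ext hone
      map_mul' := fun g k => Subtype.ext (hmul g k) }
  refine ⟨ψ, fun g => ?_⟩
  change ‖adjoint W ∘L ((lam g : F →L[ℂ] F) ∘L W) - (φ g : E →L[ℂ] E)‖ ≤ 61 * δ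
  set L : F →L[ℂ] F := (lam g : F →L[ℂ] F) with hL
  have hLn : ‖L‖ ≤ 1 := norm_unitary_le _
  have hWV : ‖W - V‖ ≤ 30 * δ := by
    have e1 : W - V = (Q ∘L V) ∘L (S - 1) + (Q - P) ∘L V := by
      rw [ContinuousLinearMap.comp_sub, ContinuousLinearMap.sub_comp, hPV, hW,
        ContinuousLinearMap.comp_assoc]
      have : (Q ∘L V) ∘L (1 : E →L[ℂ] E) = Q ∘L V := rfl
      rw [this]
      abel
    rw [e1]
    have h1 : ‖(Q ∘L V) ∘L (S - 1)‖ ≤ 20 * δ := by
      refine (opNorm_comp_le _ _).trans ?_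
      have h2 : ‖Q ∘L V‖ ≤ 1 := (opNorm_comp_le _ _).trans (by
        have := norm_nonneg V; have := norm_nonneg Q; nlinarith)
      have := norm_nonneg (Q ∘L V)
      nlinarith [norm_nonneg (S - 1)]
    have h2 : ‖(Q - P) ∘L V‖ ≤ 10 * δ := (opNorm_comp_le _ _).trans (by
      have := norm_nonneg V; have := norm_nonneg (Q - P); nlinarith)
    calc _ ≤ ‖(Q ∘L V) ∘L (S - 1)‖ + ‖(Q - P) ∘L V‖ := norm_add_le _ _
      _ ≤ 30 * δ := by linarith
  have hWV' : ‖adjoint (W - V)‖ ≤ 30 * δ := by rw [LinearIsometryEquiv.norm_map]; exact hWV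
  have e1 : adjoint W ∘L (L ∘L W) - (φ g : E →L[ℂ] E) =
      adjoint (W - V) ∘L (L ∘L W) + (adjoint V ∘L L) ∘L (W - V) +
        adjoint V ∘L (L ∘L V - V ∘L (φ g : E →L[ℂ] E)) := by
    have e2 : adjoint V ∘L (V ∘L (φ g : E →L[ℂ] E)) = (φ g : E →L[ℂ] E) := by
      rw [← ContinuousLinearMap.comp_assoc, hV]
      rfl
    rw [map_sub, ContinuousLinearMap.sub_comp, ContinuousLinearMap.comp_sub,
      ContinuousLinearMap.comp_sub, e2]
    simp only [ContinuousLinearMap.comp_assoc]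
    abel
  rw [e1]
  have h1 : ‖adjoint (W - V) ∘L (L ∘L W)‖ ≤ 30 * δ := by
    refine (opNorm_comp_le _ _).trans ?_
    have h2 : ‖L ∘L W‖ ≤ 1 := (opNorm_comp_le _ _).trans (by
      have := norm_nonneg L; have := norm_nonneg W; nlinarith)
    have := norm_nonneg (L ∘L W)
    nlinarith [norm_nonneg (adjoint (W - V))]
  have h2 : ‖(adjoint V ∘L L) ∘L (W - V)‖ ≤ 30 * δ := by
    refine (opNorm_comp_le _ _).trans ?_
    have h2 : ‖adjoint V ∘L L‖ ≤ 1 := (opNorm_comp_le _ _).trans (by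
      have := norm_nonneg L; have := norm_nonneg (adjoint V); nlinarith)
    have := norm_nonneg (adjoint V ∘L L)
    nlinarith [norm_nonneg (W - V)]
  have h3 : ‖adjoint V ∘L (L ∘L V - V ∘L (φ g : E →L[ℂ] E))‖ ≤ δ := by
    refine (opNorm_comp_le _ _).trans ?_
    have := h g
    have := norm_nonneg (L ∘L V - V ∘L (φ g : E →L[ℂ] E))
    nlinarith [norm_nonneg (adjoint V)]
  calc _ ≤ ‖adjoint (W - V) ∘L (L ∘L W) + (adjoint V ∘L L) ∘L (W - V)‖ +
        ‖adjoint V ∘L (L ∘L V - V ∘L (φ g : E →L[ℂ] E))‖ := norm_add_le _ _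
    _ ≤ ‖adjoint (W - V) ∘L (L ∘L W)‖ + ‖(adjoint V ∘L L) ∘L (W - V)‖ +
        ‖adjoint V ∘L (L ∘L V - V ∘L (φ g : E →L[ℂ] E))‖ := by gcongr; exact norm_add_le _ _
    _ ≤ 61 * δ := by linarith

end Q4.Stab
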