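import Pool.Agent.Q4.Stab.Dilation

/-!
# Uniform stability of finite groups in the operator norm
-/

open ContinuousLinearMap

namespace Q4.Stab

variable {E : Type} [NormedAddCommGroup E] [InnerProductSpace ℂ E] [CompleteSpace E]
  {Γ : Type} [Group Γ] [Fintype Γ]

/-- The right regular representation with values in a Hilbert space. -/
noncomputable def regRep (E : Type) [NormedAddCommGroup E] [InnerProductSpace ℂ E]
    [CompleteSpace E] (Γ : Type) [Group Γ] [Fintype Γ] :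
    Γ →* unitary (PiLp 2 (fun _ : Γ => E) →L[ℂ] PiLp 2 (fun _ : Γ => E)) :=
  (Unitary.linearIsometryEquiv.symm.toMonoidHom).comp
    { toFun := fun g => LinearIsometryEquiv.piLpCongrLeft 2 ℂ E (Equiv.mulRight g⁻¹)
      map_one' := by
        ext f h
        change f (h * (1⁻¹)⁻¹) = f h
        simp
      map_mul' := fun g k => by
        ext f h
        change f (h * ((g * k)⁻¹)⁻¹) = f (h * (g⁻¹)⁻¹ * (k⁻¹)⁻¹)
        simp [mul_assoc] }

theorem regRep_apply (g : Γ) (f : PiLp 2 (fun _ : Γ => E)) (h : Γ) :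
    ((regRep E Γ g : PiLp 2 (fun _ : Γ => E) →L[ℂ] PiLp 2 (fun _ : Γ => E)) f) h = f (h * g) := by
  change (Equiv.piCongrLeft' (fun _ : Γ => E) (Equiv.mulRight g⁻¹) f) h = f (h * g)
  simp [Equiv.piCongrLeft']

/-- The (normalized) orbit map. -/
noncomputable def orbitMap (φ : Γ → unitary (E →L[ℂ] E)) : E →L[ℂ] PiLp 2 (fun _ : Γ => E) :=
  ((PiLp.continuousLinearEquiv 2 ℂ (fun _ : Γ => E)).symm :
    (∀ _ : Γ, E) →L[ℂ] PiLp 2 (fun _ : Γ => E)) ∘L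
    ContinuousLinearMap.pi (fun h => ((√(Fintype.card Γ : ℝ)⁻¹ : ℝ) : ℂ) • (φ h : E →L[ℂ] E))

omit [Group Γ] in
theorem orbitMap_apply (φ : Γ → unitary (E →L[ℂ] E)) (x : E) (h : Γ) :
    orbitMap φ x h = ((√(Fintype.card Γ : ℝ)⁻¹ : ℝ) : ℂ) • (φ h : E →L[ℂ] E) x := rfl

theorem finite_stab (φ : Γ → unitary (E →L[ℂ] E)) (δ : ℝ) (hδ : δ ≤ 1 / 32)
    (h : ∀ g k, ‖(φ (g * k) : E →L[ℂ] E) - (φ g : E →L[ℂ] E) * φ k‖ ≤ δ) :
    ∃ ψ : Γ →* unitary (E →L[ℂ] E), ∀ g, ‖(ψ g : E →L[ℂ] E) - φ g‖ ≤ 61 * δ := by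
  have hδ0 : 0 ≤ δ := (norm_nonneg _).trans (h 1 1)
  have hcard : (0 : ℝ) < Fintype.card Γ := by exact_mod_cast Fintype.card_pos
  have hNcard : (Fintype.card Γ : ℝ)⁻¹ * Fintype.card Γ = 1 := inv_mul_cancel₀ hcard.ne'
  refine rep_of_dilation (orbitMap φ) ?_ (regRep E Γ) φ δ hδ ?_
  · rw [← ContinuousLinearMap.norm_map_iff_adjoint_comp_self]
    intro x
    have h1 : ‖orbitMap φ x‖ ^ 2 = ‖x‖ ^ 2 := by
      rw [PiLp.norm_sq_eq_of_L2]
      simp_rw [orbitMap_apply, norm_smul, Complex.norm_real, Unitary.norm_map, mul_pow,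
        Real.norm_of_nonneg (Real.sqrt_nonneg _), Real.sq_sqrt (inv_pos.2 hcard).le]
      rw [Finset.sum_const, Finset.card_univ, nsmul_eq_mul]
      linear_combination ‖x‖ ^ 2 * hNcard
    exact (pow_left_inj₀ (norm_nonneg _) (norm_nonneg _) two_ne_zero).1 h1
  · intro g
    refine ContinuousLinearMap.opNorm_le_bound _ hδ0 fun x => ?_
    have h1 : ‖((regRep E Γ g : PiLp 2 (fun _ : Γ => E) →L[ℂ] PiLp 2 (fun _ : Γ => E)) ∘L
        orbitMap φ - orbitMap φ ∘L (φ g : E →L[ℂ] E)) x‖ ^ 2 ≤ (δ * ‖x‖) ^ 2 := by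
      rw [PiLp.norm_sq_eq_of_L2]
      have h2 : ∀ k : Γ, ‖(((regRep E Γ g : PiLp 2 (fun _ : Γ => E) →L[ℂ]
          PiLp 2 (fun _ : Γ => E)) ∘L orbitMap φ - orbitMap φ ∘L (φ g : E →L[ℂ] E)) x) k‖ ^ 2 ≤
          (Fintype.card Γ : ℝ)⁻¹ * (δ * ‖x‖) ^ 2 := by
        intro k
        have e1 : (((regRep E Γ g : PiLp 2 (fun _ : Γ => E) →L[ℂ]
          PiLp 2 (fun _ : Γ => E)) ∘L orbitMap φ - orbitMap φ ∘L (φ g : E →L[ℂ] E)) x) k =
          ((√(Fintype.card Γ : ℝ)⁻¹ : ℝ) : ℂ) •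
            (((φ (k * g) : E →L[ℂ] E) - (φ k : E →L[ℂ] E) * φ g) x) := by
          change ((regRep E Γ g : PiLp 2 (fun _ : Γ => E) →L[ℂ] PiLp 2 (fun _ : Γ => E))
            (orbitMap φ x)) k - orbitMap φ ((φ g : E →L[ℂ] E) x) k = _
          rw [regRep_apply, orbitMap_apply, orbitMap_apply, ← smul_sub]
          rfl
        rw [e1, norm_smul, Complex.norm_real, mul_pow,
          Real.norm_of_nonneg (Real.sqrt_nonneg _), Real.sq_sqrt (inv_pos.2 hcard).le]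
        gcongr
        exact (ContinuousLinearMap.le_opNorm _ _).trans (by gcongr; exact h k g)
      calc _ ≤ ∑ _k : Γ, (Fintype.card Γ : ℝ)⁻¹ * (δ * ‖x‖) ^ 2 :=
            Finset.sum_le_sum fun k _ => h2 k
        _ = (δ * ‖x‖) ^ 2 := by
            rw [Finset.sum_const, Finset.card_univ, nsmul_eq_mul]
            linear_combination (δ * ‖x‖) ^ 2 * hNcard
    exact (pow_le_pow_iff_left₀ (norm_nonneg _) (by positivity) two_ne_zero).1 h1

end Q4.Stab
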