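import Pool.Agent.Q4.Stab.LocFin

/-!
# The Heisenberg group over the non-unital ring `ℕ →₀ ZMod 2`
-/

open Filter Topology

namespace Q4.Stab

/-- The ring of finitely supported sequences in the field with two elements. -/
abbrev R : Type := ℕ →₀ ZMod 2

theorem R_add_self (a : R) : a + a = 0 := by
  ext i
  exact CharTwo.add_self_eq_zero _

/-- The Heisenberg group over `R`. -/
@[ext] structure Heis : Type where
  x : R
  y : R
  z : R

namespace Heis

noncomputable instance : Mul Heis := ⟨fun a b => ⟨a.x + b.x, a.y + b.y, a.z + b.z + a.y * b.x⟩⟩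
instance : One Heis := ⟨⟨0, 0, 0⟩⟩
noncomputable instance : Inv Heis := ⟨fun a => ⟨a.x, a.y, a.z + a.y * a.x⟩⟩

@[simp] theorem mul_x (a b : Heis) : (a * b).x = a.x + b.x := rfl
@[simp] theorem mul_y (a b : Heis) : (a * b).y = a.y + b.y := rfl
@[simp] theorem mul_z (a b : Heis) : (a * b).z = a.z + b.z + a.y * b.x := rfl
@[simp] theorem one_x : (1 : Heis).x = 0 := rfl
@[simp] theorem one_y : (1 : Heis).y = 0 := rfl
@[simp] theorem one_z : (1 : Heis).z = 0 := rfl

noncomputable instance : Group Heis :=
  Group.ofLeftAxioms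
    (fun a b c => by
      ext1
      · simp [add_assoc]
      · simp [add_assoc]
      · simp only [mul_z, mul_y, mul_x, add_mul, mul_add]
        abel)
    (fun a => by ext1 <;> simp)
    (fun a => by
      ext1
      · exact R_add_self _
      · exact R_add_self _
      · change a.z + a.y * a.x + a.z + a.y * a.x = 0
        rw [add_assoc (a.z + a.y * a.x)]
        exact R_add_self _)

instance : Countable Heis :=
  Function.Injective.countable (f := fun a : Heis => (a.x, a.y, a.z)) (by
    intro a b h
    simp only [Prod.mk.injEq] at h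
    exact Heis.ext h.1 h.2.1 h.2.2)

/-- The truncation of a sequence. -/
noncomputable def cut (m : ℕ) (a : R) : R := Finsupp.filter (fun i => i < m) a

theorem cut_apply (m : ℕ) (a : R) (i : ℕ) : cut m a i = if i < m then a i else 0 := by
  rw [cut, Finsupp.filter_apply]

theorem cut_add (m : ℕ) (a b : R) : cut m (a + b) = cut m a + cut m b := Finsupp.filter_add

theorem cut_mul (m : ℕ) (a b : R) : cut m (a * b) = cut m a * cut m b := by
  ext i
  rw [cut_apply, Finsupp.mul_apply, Finsupp.mul_apply, cut_apply, cut_apply]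
  split_ifs <;> simp

theorem eventually_cut (a : R) : ∀ᶠ m in atTop, cut m a = a := by
  filter_upwards [eventually_ge_atTop (a.support.sup id + 1)] with m hm
  ext i
  rw [cut_apply]
  split_ifs with h
  · rfl
  · symm
    by_contra h1
    have h2 : i ≤ a.support.sup id := Finset.le_sup (f := id) (Finsupp.mem_support_iff.2 h1)
    omega

theorem finite_cut (m : ℕ) : (Set.range (cut m)).Finite := by
  have h1 : Function.Injective (fun (a : Set.range (cut m)) (i : Fin m) => (a : R) i) := by
    rintro ⟨_, a, rfl⟩ ⟨_, b, rfl⟩ h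
    ext i
    change cut m a i = cut m b i
    by_cases hi : i < m
    · exact congrFun h ⟨i, hi⟩
    · rw [cut_apply, cut_apply, if_neg hi, if_neg hi]
  exact Set.finite_coe_iff.1 (Finite.of_injective _ h1)

/-- The truncation endomorphisms. -/
noncomputable def proj (m : ℕ) : Heis →* Heis where
  toFun a := ⟨cut m a.x, cut m a.y, cut m a.z⟩
  map_one' := by ext i <;> simp [cut_apply]
  map_mul' a b := by
    ext1
    · exact cut_add _ _ _
    · exact cut_add _ _ _
    · simp only [mul_z, cut_add, cut_mul]

theorem stable : OperatorNormStable Heis := by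
  refine stable_of_retractions Heis proj (fun m => ?_) (fun g => ?_)
  · have h1 := (finite_cut m).to_subtype
    refine Finite.of_injective (β := Set.range (cut m) × Set.range (cut m) × Set.range (cut m))
      (fun a => (⟨a.1.x, ?_⟩, ⟨a.1.y, ?_⟩, ⟨a.1.z, ?_⟩)) ?_
    · obtain ⟨b, hb⟩ := a.2
      exact ⟨b.x, by rw [← hb]; rfl⟩
    · obtain ⟨b, hb⟩ := a.2
      exact ⟨b.y, by rw [← hb]; rfl⟩
    · obtain ⟨b, hb⟩ := a.2
      exact ⟨b.z, by rw [← hb]; rfl⟩
    · rintro ⟨a, ha⟩ ⟨b, hb⟩ h
      simp only [Prod.mk.injEq, Subtype.mk.injEq] at h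
      exact Subtype.ext (Heis.ext h.1 h.2.1 h.2.2)
  · filter_upwards [eventually_cut g.x, eventually_cut g.y, eventually_cut g.z] with m h1 h2 h3
    exact Heis.ext h1 h2 h3

end Heis

end Q4.Stab
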