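import Pool.Agent.Q4.Stab.Reps

/-!
# The amalgam, and the fact that finite dimensional representations kill the amalgamated subgroup
-/

open Filter Topology

namespace Q4.Stab

/-- The parent of an index. -/
def par (j : ℕ) : ℕ := (Nat.unpair j).1

theorem par_lt (j : ℕ) : par (j + 1) < j + 1 := Nat.unpair_lt (Nat.succ_pos j)

/-- The columns of the unitriangular map. -/
noncomputable def tcol (j : ℕ) : R := if j = 0 then e 0 else e j + e (par j)

/-- The columns of the inverse. -/
noncomputable def hh : ℕ → R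
  | 0 => e 0
  | (j + 1) => e (j + 1) + hh (par (j + 1))
termination_by j => j
decreasing_by exact par_lt j

theorem hh_zero : hh 0 = e 0 := by rw [hh]

theorem hh_succ (j : ℕ) : hh (j + 1) = e (j + 1) + hh (par (j + 1)) := by rw [hh]

/-- The unitriangular map. -/
noncomputable def T : R →ₗ[ZMod 2] R := Finsupp.linearCombination (ZMod 2) tcol

/-- Its inverse. -/
noncomputable def S : R →ₗ[ZMod 2] R := Finsupp.linearCombination (ZMod 2) hh

theorem T_e (j : ℕ) : T (e j) = tcol j := by
  rw [T, e, Finsupp.linearCombination_single, one_smul]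

theorem S_e (j : ℕ) : S (e j) = hh j := by
  rw [S, e, Finsupp.linearCombination_single, one_smul]

theorem T_hh (j : ℕ) : T (hh j) = e j := by
  induction j using Nat.strong_induction_on with
  | _ j ih =>
    cases j with
    | zero => rw [hh_zero, T_e, tcol, if_pos rfl]
    | succ j =>
      rw [hh_succ, map_add, ih _ (par_lt j), T_e, tcol, if_neg (Nat.succ_ne_zero j), add_assoc,
        R_add_self, add_zero]

theorem S_T (a : R) : S (T a) = a := by
  have h : S ∘ₗ T = LinearMap.id := by
    refine Finsupp.lhom_ext' fun j => LinearMap.ext_ring ?_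
    change S (T (e j)) = e j
    rw [T_e, tcol]
    cases j with
    | zero => rw [if_pos rfl, S_e, hh_zero]
    | succ j => rw [if_neg (Nat.succ_ne_zero j), map_add, S_e, S_e, hh_succ, add_assoc,
        R_add_self, add_zero]
  exact LinearMap.congr_fun h a

/-- The amalgamated subgroup. -/
abbrev H : Type := Multiplicative R

/-- The first embedding. -/
noncomputable def ι₁ : H →* Heis where
  toFun h := ⟨0, 0, T h.toAdd⟩
  map_one' := by
    ext1
    · rfl
    · rfl
    · exact map_zero T
  map_mul' a b := by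
    ext1
    · simp
    · simp
    · rw [Heis.mul_z, toAdd_mul, map_add]
      simp

/-- The second embedding. -/
noncomputable def ι₂ : H →* Heis where
  toFun h := ⟨0, 0, h.toAdd⟩
  map_one' := rfl
  map_mul' a b := by
    ext1
    · simp
    · simp
    · rw [Heis.mul_z, toAdd_mul]
      simp

theorem ι₁_inj : Function.Injective ι₁ := by
  intro a b h
  have h1 : T a.toAdd = T b.toAdd := congrArg Heis.z h
  have h2 := congrArg S h1
  rw [S_T, S_T] at h2
  exact h2

theorem ι₂_inj : Function.Injective ι₂ := by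
  intro a b h
  exact congrArg Heis.z h

theorem heis_central (z : R) (g : Heis) : (⟨0, 0, z⟩ : Heis) * g = g * ⟨0, 0, z⟩ := by
  ext1
  · simp
  · simp
  · simp [add_comm]

/-- The amalgam. -/
abbrev A : Type := Amalgam ι₁ ι₂

/-- The first factor. -/
noncomputable def f₁ : Heis →* A := (QuotientGroup.mk' _).comp Monoid.Coprod.inl

/-- The second factor. -/
noncomputable def f₂ : Heis →* A := (QuotientGroup.mk' _).comp Monoid.Coprod.inr

theorem f₁_ι₁ (h : H) : f₁ (ι₁ h) = f₂ (ι₂ h) := by
  have h1 : (QuotientGroup.mk' (Subgroup.normalClosure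
      (Set.range fun h : H => (Monoid.Coprod.inl (ι₁ h) * (Monoid.Coprod.inr (ι₂ h))⁻¹ :
      Monoid.Coprod Heis Heis)))) (Monoid.Coprod.inl (ι₁ h) * (Monoid.Coprod.inr (ι₂ h))⁻¹) = 1 :=
    (QuotientGroup.eq_one_iff _).2 (Subgroup.subset_normalClosure ⟨h, rfl⟩)
  rw [map_mul, map_inv] at h1
  exact mul_inv_eq_one.1 h1

theorem central (h : H) (a : A) : f₁ (ι₁ h) * a = a * f₁ (ι₁ h) := by
  induction a using QuotientGroup.induction_on with
  | H w =>
    induction w using Monoid.Coprod.induction_on' with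
    | one => exact (mul_one _).trans (one_mul _).symm
    | inl_mul g w ih =>
      have h1 : ((Monoid.Coprod.inl g * w : Monoid.Coprod Heis Heis) : A) = f₁ g * (w : A) := rfl
      have h2 : f₁ (ι₁ h) * f₁ g = f₁ g * f₁ (ι₁ h) := by
        rw [← map_mul, ← map_mul]
        exact congrArg f₁ (heis_central _ g)
      rw [h1, ← mul_assoc, h2, mul_assoc, ih, mul_assoc]
    | inr_mul g w ih =>
      have h1 : ((Monoid.Coprod.inr g * w : Monoid.Coprod Heis Heis) : A) = f₂ g * (w : A) := rfl
      have h2 : f₁ (ι₁ h) * f₂ g = f₂ g * f₁ (ι₁ h) := by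
        rw [f₁_ι₁, ← map_mul, ← map_mul]
        exact congrArg f₂ (heis_central _ g)
      rw [h1, ← mul_assoc, h2, mul_assoc, ih, mul_assoc]

theorem H_mul_self (h : H) : h * h = 1 := R_add_self _

theorem kills (V : Type) [AddCommGroup V] [Module ℂ V] [FiniteDimensional ℂ V]
    (ρ : A →* Module.End ℂ V) (h0 : H) : ρ (f₁ (ι₁ h0)) = 1 := by
  by_contra hne
  obtain ⟨W, _, _, _, _, ρ', hneg, hC⟩ := exists_isotypic' (Set.range fun h : H => f₁ (ι₁ h))
    (by rintro _ ⟨h, rfl⟩ a; exact central h a)
    (by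
      rintro _ ⟨h, rfl⟩
      change f₁ (ι₁ h) * f₁ (ι₁ h) = 1
      rw [← map_mul, ← map_mul, H_mul_self, map_one, map_one])
    (f₁ (ι₁ h0)) ⟨h0, rfl⟩ V ρ hne
  -- the central character
  let χ : H →* Module.End ℂ W := ρ'.comp (f₁.comp ι₁)
  have hχ : ∀ h, χ h = 1 ∨ χ h = -1 := fun h => hC _ ⟨h, rfl⟩
  have hfin1 : {j | χ (Multiplicative.ofAdd (hh j)) = -1}.Finite := by
    have h1 := heis_finite W (ρ'.comp f₁)
    refine h1.subset fun j hj => ?_
    rw [Set.mem_ofPred_eq] at hj ⊢
    rw [← hj]
    have : ι₁ (Multiplicative.ofAdd (hh j)) = ⟨0, 0, e j⟩ := by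
      rw [← T_hh j]
      rfl
    change ρ' (f₁ _) = ρ' (f₁ (ι₁ _))
    rw [this]
  have hfin2 : {j | χ (Multiplicative.ofAdd (e j)) = -1}.Finite := by
    have h1 := heis_finite W (ρ'.comp f₂)
    refine h1.subset fun j hj => ?_
    rw [Set.mem_ofPred_eq] at hj ⊢
    rw [← hj]
    change ρ' (f₂ (ι₂ (Multiplicative.ofAdd (e j)))) = ρ' (f₁ (ι₁ _))
    rw [f₁_ι₁]
  have hall : ∀ i, χ (Multiplicative.ofAdd (hh i)) = 1 := by
    intro i
    have hinf : (Set.range fun k => Nat.pair i (k + 1)).Infinite := by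
      refine Set.infinite_range_of_injective fun a b h => ?_
      have := (Nat.pair_eq_pair.1 h).2
      omega
    obtain ⟨j, ⟨k, hk⟩, hj⟩ := (hinf.sdiff (hfin1.union hfin2)).nonempty
    rw [Set.mem_union, not_or] at hj
    have h1 := (hχ (Multiplicative.ofAdd (hh j))).resolve_right hj.1
    have h2 := (hχ (Multiplicative.ofAdd (e j))).resolve_right hj.2
    have hj0 : j ≠ 0 := by
      rintro rfl
      have h3 := Nat.right_le_pair i (k + 1)
      have hk' : Nat.pair i (k + 1) = 0 := hk
      omega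
    obtain ⟨j, rfl⟩ := Nat.exists_eq_succ_of_ne_zero hj0
    have hpar : par (j + 1) = i := by
      have : Nat.pair i (k + 1) = j + 1 := hk
      rw [par, ← this, Nat.unpair_pair]
    have h3 : Multiplicative.ofAdd (hh i) =
        Multiplicative.ofAdd (e (j + 1)) * Multiplicative.ofAdd (hh (j + 1)) := by
      rw [← ofAdd_add, hh_succ, hpar, ← add_assoc, R_add_self, zero_add]
    rw [h3, map_mul]
    erw [h1, h2]
    rw [one_mul]
  have hχ1 : ∀ a : R, χ (Multiplicative.ofAdd (S a)) = 1 := by
    intro a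
    induction a using Finsupp.induction_linear with
    | zero => rw [map_zero, ofAdd_zero, map_one]
    | add f g hf hg => rw [map_add, ofAdd_add, map_mul, hf, hg, one_mul]
    | single j b =>
      have h1 : (Finsupp.single j b : R) = b • e j := by
        rw [e, Finsupp.smul_single, smul_eq_mul, mul_one]
      rw [h1, map_smul, S_e]
      have h2 : b = 0 ∨ b = 1 := (by decide : ∀ b : ZMod 2, b = 0 ∨ b = 1) b
      rcases h2 with rfl | rfl
      · rw [zero_smul, ofAdd_zero, map_one]
      · rw [one_smul, hall]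
  have h1 := hχ1 (T h0.toAdd)
  rw [S_T] at h1
  have h2 : (1 : Module.End ℂ W) = -1 := by
    rw [← hneg, ← h1]
    rfl
  have h3 : (2 : ℂ) • (1 : Module.End ℂ W) = 0 := by
    rw [two_smul]
    nth_rewrite 1 [h2]
    exact neg_add_cancel _
  have h4 : (1 : Module.End ℂ W) = 0 := (smul_eq_zero.1 h3).resolve_left two_ne_zero
  exact one_ne_zero h4

end Q4.Stab
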