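import Pool.Agent.Q4.Stab.FiniteStab
import Pool.Agent.Q4.Stab.Defs

/-!
# Groups that are well approximated by finite retracts are stable
-/

open Filter Topology

namespace Q4.Stab

theorem opDist_symm {k : ℕ} (u v : U k) : opDist u v = opDist v u := norm_sub_rev _ _

theorem opDist_nonneg {k : ℕ} (u v : U k) : 0 ≤ opDist u v := norm_nonneg _

theorem stable_of_retractions (G : Type) [Group G] (p : ℕ → G →* G)
    (hfin : ∀ m, Finite (p m).range) (hev : ∀ g, ∀ᶠ m in atTop, p m g = g) :
    OperatorNormStable G := by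
  classical
  intro k hk φ hφ
  -- the approximation property
  let P : ℕ → ℕ → Prop := fun n m => ∃ ψ : G →* U (k n), ∀ g, p m g = g →
    opDist (φ n g) (ψ g) ≤ 2 / (m + 1)
  have hP : ∀ m, ∀ᶠ n in atTop, P n m := by
    intro m
    have := hfin m
    have := Fintype.ofFinite (p m).range
    have h1 : ∀ᶠ n in atTop, ∀ g h : (p m).range,
        opDist (φ n (g * h)) (φ n g * φ n h) ≤ 1 / (32 * (m + 1)) := by
      rw [eventually_all]
      intro g
      rw [eventually_all]
      intro h
      exact (hφ g h).eventually_le_const (by positivity)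
    filter_upwards [h1] with n hn
    obtain ⟨ψ, hψ⟩ := finite_stab (Γ := (p m).range) (fun g => φ n g) (1 / (32 * ((m : ℝ) + 1)))
      (by
        rw [div_le_div_iff₀ (by positivity) (by positivity)]
        have : (0 : ℝ) ≤ m := Nat.cast_nonneg m
        linarith) (fun g h => hn g h)
    refine ⟨ψ.comp (p m).rangeRestrict, fun g hg => ?_⟩
    have h2 := hψ ((p m).rangeRestrict g)
    have h3 : (((p m).rangeRestrict g : (p m).range) : G) = g := hg
    rw [opDist_symm]
    change ‖_‖ ≤ _
    rw [h3] at h2
    refine h2.trans ?_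
    rw [← mul_div_assoc, div_le_div_iff₀ (by positivity) (by positivity)]
    have : (0 : ℝ) ≤ m := Nat.cast_nonneg m
    nlinarith
  let μ : ℕ → ℕ := fun n => Nat.findGreatest (P n) n
  have hμ : Tendsto μ atTop atTop := by
    rw [tendsto_atTop]
    intro M
    filter_upwards [hP M, eventually_ge_atTop M] with n hn hMn
    exact Nat.le_findGreatest hMn hn
  have hμP : ∀ᶠ n in atTop, P n (μ n) := by
    filter_upwards [hP 0] with n hn
    exact Nat.findGreatest_spec (Nat.zero_le _) hn
  let ψ : ∀ n, G →* U (k n) := fun n => if h : P n (μ n) then h.choose else 1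
  refine ⟨ψ, fun g => ?_⟩
  have hb : ∀ᶠ n in atTop, opDist (φ n g) (ψ n g) ≤ 2 / ((μ n : ℝ) + 1) := by
    filter_upwards [hμP, hμ.eventually (hev g)] with n hn hg
    have : ψ n = hn.choose := dif_pos hn
    rw [this]
    exact hn.choose_spec g hg
  refine squeeze_zero' (Eventually.of_forall fun n => opDist_nonneg _ _) hb ?_
  have h1 : Tendsto (fun n : ℕ => 2 / ((n : ℝ) + 1)) atTop (𝓝 0) := by
    have := (tendsto_one_div_add_atTop_nhds_zero_nat (𝕜 := ℝ)).const_mul 2
    simpa [div_eq_mul_inv] using this
  exact h1.comp hμ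

end Q4.Stab
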