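import Pool.Agent.Q4.Stab.Approx

/-!
# The formulation with matrices
-/

open Filter Topology

namespace Q4.Stab

/-- The operator norm of a square complex matrix: the least `c ≥ 0` with `‖M v‖ ≤ c ‖v‖` for all
vectors `v`, for the Euclidean norm. -/
noncomputable def opNorm {k : ℕ} (M : Matrix (Fin k) (Fin k) ℂ) : ℝ :=
  sInf {c : ℝ | 0 ≤ c ∧ ∀ v : Fin k → ℂ,
    √(∑ i, ‖M.mulVec v i‖ ^ 2) ≤ c * √(∑ i, ‖v i‖ ^ 2)}

/-- Operator norm stability (matricial stability) of a group. -/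
def IsOperatorNormStable (G : Type) [Group G] : Prop :=
  ∀ (k : ℕ → ℕ) (φ : ∀ n, G → Matrix (Fin (k n)) (Fin (k n)) ℂ),
    (∀ n, 0 < k n) → (∀ n g, φ n g ∈ Matrix.unitaryGroup (Fin (k n)) ℂ) →
    (∀ g h, Tendsto (fun n => opNorm (φ n (g * h) - φ n g * φ n h)) atTop (𝓝 0)) →
      ∃ ψ : ∀ n, G → Matrix (Fin (k n)) (Fin (k n)) ℂ,
        (∀ n g, ψ n g ∈ Matrix.unitaryGroup (Fin (k n)) ℂ) ∧
        (∀ n g h, ψ n (g * h) = ψ n g * ψ n h) ∧
        ∀ g, Tendsto (fun n => opNorm (φ n g - ψ n g)) atTop (𝓝 0)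

/-- Matrices as operators. -/
noncomputable def toOp (k : ℕ) : Matrix (Fin k) (Fin k) ℂ ≃⋆ₐ[ℂ]
    (EuclideanSpace ℂ (Fin k) →L[ℂ] EuclideanSpace ℂ (Fin k)) :=
  Matrix.toEuclideanCLM

theorem opNorm_eq {k : ℕ} (M : Matrix (Fin k) (Fin k) ℂ) : opNorm M = ‖toOp k M‖ := by
  rw [opNorm, ContinuousLinearMap.norm_def]
  congr 1
  ext c
  constructor
  · rintro ⟨h0, h⟩
    refine ⟨h0, fun x => ?_⟩
    rw [EuclideanSpace.norm_eq, EuclideanSpace.norm_eq]
    exact h x.ofLp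
  · rintro ⟨h0, h⟩
    refine ⟨h0, fun v => ?_⟩
    have := h (WithLp.toLp 2 v)
    rw [EuclideanSpace.norm_eq, EuclideanSpace.norm_eq] at this
    exact this

/-- A unitary matrix as a unitary operator. -/
noncomputable def toU {k : ℕ} (M : Matrix (Fin k) (Fin k) ℂ)
    (h : M ∈ Matrix.unitaryGroup (Fin k) ℂ) : U k :=
  ⟨toOp k M, by
    rw [Unitary.mem_iff, ← map_star, ← map_mul, ← map_mul, Unitary.star_mul_self_of_mem h,
      Unitary.mul_star_self_of_mem h, map_one]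
    exact ⟨rfl, rfl⟩⟩

/-- A unitary operator as a matrix. -/
noncomputable def ofU {k : ℕ} (u : U k) : Matrix (Fin k) (Fin k) ℂ := (toOp k).symm u

theorem toOp_ofU {k : ℕ} (u : U k) : toOp k (ofU u) = u := (toOp k).apply_symm_apply _

theorem toOp_inj {k : ℕ} {M N : Matrix (Fin k) (Fin k) ℂ} (h : toOp k M = toOp k N) : M = N :=
  EquivLike.injective (toOp k) h

theorem ofU_mem {k : ℕ} (u : U k) : ofU u ∈ Matrix.unitaryGroup (Fin k) ℂ := by
  rw [Matrix.mem_unitaryGroup_iff]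
  apply toOp_inj
  rw [map_mul, map_star, map_one, toOp_ofU]
  exact u.2.2

theorem ofU_mul {k : ℕ} (u v : U k) : ofU (u * v) = ofU u * ofU v := by
  apply toOp_inj
  rw [map_mul, toOp_ofU, toOp_ofU, toOp_ofU]
  rfl

theorem stable_iff (G : Type) [Group G] : IsOperatorNormStable G ↔ OperatorNormStable G := by
  constructor
  · intro hG k hk φ hφ
    obtain ⟨ψ, hψ1, hψ2, hψ3⟩ := hG k (fun n g => ofU (φ n g)) hk (fun n g => ofU_mem _) (by
      intro g h
      refine (hφ g h).congr fun n => ?_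
      rw [opNorm_eq, map_sub, map_mul, toOp_ofU, toOp_ofU, toOp_ofU]
      rfl)
    refine ⟨fun n => MonoidHom.mk' (fun g => toU (ψ n g) (hψ1 n g)) (fun g h => ?_), fun g => ?_⟩
    · apply Subtype.ext
      change toOp _ (ψ n (g * h)) = toOp _ (ψ n g) * toOp _ (ψ n h)
      rw [hψ2, map_mul]
    · refine (hψ3 g).congr fun n => ?_
      rw [opNorm_eq, map_sub, toOp_ofU]
      rfl
  · intro hG k φ hk hφ1 hφ2
    obtain ⟨ψ, hψ⟩ := hG k hk (fun n g => toU (φ n g) (hφ1 n g)) (by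
      intro g h
      refine (hφ2 g h).congr fun n => ?_
      rw [opNorm_eq, map_sub, map_mul]
      rfl)
    refine ⟨fun n g => ofU (ψ n g), fun n g => ofU_mem _, fun n g h => ?_, fun g => ?_⟩
    · change ofU (ψ n (g * h)) = _
      rw [map_mul, ofU_mul]
    · refine (hψ g).congr fun n => ?_
      rw [opNorm_eq, map_sub, toOp_ofU]
      rfl

end Q4.Stab
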