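import Mathlib

/-!
# Perturbation lemmas in `C*`-algebras and stability of finite groups
-/

open ContinuousLinearMap

namespace Q4.Stab

section CStar

variable {A : Type} [CStarAlgebra A]

/-- The clamping function. -/
noncomputable def cl (x : ℝ) : ℝ := max 0 (min 1 (2 * x - 1 / 2))

theorem continuous_cl : Continuous cl := by unfold cl; fun_prop

theorem near_zero_one {x η : ℝ} (hη : η ≤ 3 / 16) (h : |x ^ 2 - x| ≤ η) :
    (cl x = 0 ∧ |x| ≤ 4 / 3 * η) ∨ (cl x = 1 ∧ |x - 1| ≤ 4 / 3 * η) := by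
  obtain ⟨h1, h2⟩ := abs_le.1 h
  rcases le_or_gt x (1 / 4) with hx | hx
  · left
    constructor
    · unfold cl
      rw [max_eq_left]
      exact (min_le_right _ _).trans (by linarith)
    · rw [abs_le]
      constructor <;> nlinarith
  · have hx3 : 3 / 4 ≤ x := by
      by_contra h'
      push Not at h'
      nlinarith
    right
    constructor
    · unfold cl
      rw [min_eq_left (by linarith), max_eq_right zero_le_one]
    · rw [abs_le]
      constructor <;> nlinarith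

theorem exists_projection (a : A) (ha : IsSelfAdjoint a) (η : ℝ) (hη : η ≤ 3 / 16)
    (h : ‖a ^ 2 - a‖ ≤ η) :
    ∃ q : A, IsSelfAdjoint q ∧ q * q = q ∧ ‖q - a‖ ≤ 4 / 3 * η ∧
      ∀ b : A, Commute a b → Commute q b := by
  have hη0 : 0 ≤ η := (norm_nonneg _).trans h
  have hspec : ∀ x ∈ spectrum ℝ a, |x ^ 2 - x| ≤ η := by
    intro x hx
    have h1 : cfc (fun x : ℝ => x ^ 2 - x) a = a ^ 2 - a := by
      rw [cfc_sub (fun x : ℝ => x ^ 2) (fun x : ℝ => x) a, cfc_pow_id a 2, cfc_id' ℝ a]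
    have h2 := norm_apply_le_norm_cfc (fun x : ℝ => x ^ 2 - x) a hx
    rw [h1] at h2
    exact h2.trans h
  refine ⟨cfc cl a, cfc_predicate _ _, ?_, ?_, fun b hb => hb.cfc_real cl⟩
  · rw [← cfc_mul cl cl a continuous_cl.continuousOn continuous_cl.continuousOn]
    refine cfc_congr fun x hx => ?_
    rcases near_zero_one hη (hspec x hx) with ⟨h1, -⟩ | ⟨h1, -⟩ <;> simp only [h1] <;> norm_num
  · have h1 : cfc cl a - a = cfc (fun x => cl x - x) a := by
      rw [cfc_sub cl (fun x : ℝ => x) a continuous_cl.continuousOn, cfc_id' ℝ a]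
    rw [h1]
    refine norm_cfc_le (by positivity) fun x hx => ?_
    rcases near_zero_one hη (hspec x hx) with ⟨h1, h2⟩ | ⟨h1, h2⟩
    · rw [h1, zero_sub, norm_neg]
      exact h2
    · rw [h1, norm_sub_rev]
      exact h2

theorem exists_invSqrt (b : A) (hb : IsSelfAdjoint b) (η : ℝ) (hη : η ≤ 1 / 2)
    (h : ‖b - 1‖ ≤ η) :
    ∃ s : A, IsSelfAdjoint s ∧ s * b * s = 1 ∧ s * (s * b) = 1 ∧ ‖s - 1‖ ≤ 2 * η := by
  have hη0 : 0 ≤ η := (norm_nonneg _).trans h
  have hspec : ∀ x ∈ spectrum ℝ b, |x - 1| ≤ η := by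
    intro x hx
    have h1 : cfc (fun x : ℝ => x - 1) b = b - 1 := by
      rw [cfc_sub (fun x : ℝ => x) (fun _ : ℝ => 1) b, cfc_const_one ℝ b, cfc_id' ℝ b]
    have h2 := norm_apply_le_norm_cfc (fun x : ℝ => x - 1) b hx
    rw [h1] at h2
    exact h2.trans h
  have hpos : ∀ x ∈ spectrum ℝ b, 1 / 2 ≤ x := by
    intro x hx
    have := (abs_le.1 (hspec x hx)).1
    linarith
  have hcont : ContinuousOn (fun x : ℝ => (Real.sqrt x)⁻¹) (spectrum ℝ b) := by
    refine ContinuousOn.inv₀ (by fun_prop) fun x hx => ?_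
    have := hpos x hx
    exact (Real.sqrt_pos.2 (by linarith)).ne'
  have hcont2 : ContinuousOn (fun x : ℝ => (Real.sqrt x)⁻¹ * x) (spectrum ℝ b) :=
    hcont.mul continuousOn_id
  have hcomm : Commute (cfc (fun x : ℝ => (Real.sqrt x)⁻¹) b) b := (Commute.refl b).cfc_real _
  have hone : cfc (fun x : ℝ => (Real.sqrt x)⁻¹) b * (cfc (fun x : ℝ => (Real.sqrt x)⁻¹) b * b) =
      1 := by
    have h1 : cfc (fun x : ℝ => (Real.sqrt x)⁻¹) b * b =
        cfc (fun x : ℝ => (Real.sqrt x)⁻¹ * x) b := by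
      rw [cfc_mul _ (fun x : ℝ => x) b hcont, cfc_id' ℝ b]
    rw [h1, ← cfc_mul _ _ b hcont hcont2, ← cfc_const_one ℝ b]
    refine cfc_congr fun x hx => ?_
    have h2 := hpos x hx
    have h3 : Real.sqrt x * Real.sqrt x = x := Real.mul_self_sqrt (by linarith)
    have h4 : Real.sqrt x ≠ 0 := (Real.sqrt_pos.2 (by linarith)).ne'
    field_simp
    nlinarith
  refine ⟨cfc (fun x : ℝ => (Real.sqrt x)⁻¹) b, cfc_predicate _ _, ?_, hone, ?_⟩
  · rw [← hone, mul_assoc, hcomm.eq]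
  · have h1 : cfc (fun x : ℝ => (Real.sqrt x)⁻¹) b - 1 =
        cfc (fun x : ℝ => (Real.sqrt x)⁻¹ - 1) b := by
      rw [cfc_sub _ (fun _ : ℝ => 1) b hcont, cfc_const_one ℝ b]
    rw [h1]
    refine norm_cfc_le (by positivity) fun x hx => ?_
    have h2 := hpos x hx
    have h3 : Real.sqrt x * Real.sqrt x = x := Real.mul_self_sqrt (by linarith)
    have h4 : 1 / 2 ≤ Real.sqrt x := Real.le_sqrt_of_sq_le (by linarith)
    have h5 : 0 < Real.sqrt x := by linarith
    have h6 := hspec x hx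
    have h7 : (Real.sqrt x)⁻¹ - 1 = (1 - x) * ((Real.sqrt x)⁻¹ * (1 + Real.sqrt x)⁻¹) := by
      field_simp
      nlinarith
    rw [h7, norm_mul, Real.norm_eq_abs, Real.norm_eq_abs, abs_sub_comm]
    have h8 : |(Real.sqrt x)⁻¹ * (1 + Real.sqrt x)⁻¹| ≤ 2 := by
      rw [abs_of_pos (by positivity), ← mul_inv]
      rw [inv_le_comm₀ (by positivity) (by norm_num)]
      nlinarith
    calc |x - 1| * |(Real.sqrt x)⁻¹ * (1 + Real.sqrt x)⁻¹| ≤ η * 2 :=
          mul_le_mul h6 h8 (abs_nonneg _) hη0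
      _ = 2 * η := by ring

end CStar

end Q4.Stab
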