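import Pool.Agent.Q4.Stab.Heis

/-!
# Finite dimensional representations
-/

open Filter Topology

namespace Q4.Stab

/-- The restriction of a representation to an invariant subspace. -/
noncomputable def restrictRep {A : Type} [Group A] {V : Type} [AddCommGroup V] [Module ℂ V]
    (ρ : A →* Module.End ℂ V) (W : Submodule ℂ V) (hW : ∀ a, ∀ x ∈ W, ρ a x ∈ W) :
    A →* Module.End ℂ W where
  toFun a := (ρ a).restrict (hW a)
  map_one' := by
    ext x
    simp
  map_mul' a b := by
    ext x
    simp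

theorem restrictRep_coe {A : Type} [Group A] {V : Type} [AddCommGroup V] [Module ℂ V]
    (ρ : A →* Module.End ℂ V) (W : Submodule ℂ V) (hW : ∀ a, ∀ x ∈ W, ρ a x ∈ W) (a : A) (w : W) :
    (restrictRep ρ W hW a w : V) = ρ a w := rfl

theorem exists_isotypic {A : Type} [Group A] (C : Set A) (hC : ∀ c ∈ C, ∀ a, c * a = a * c)
    (hC2 : ∀ c ∈ C, c * c = 1) (h0 : A) (n : ℕ) :
    ∀ (V : Type) [AddCommGroup V] [Module ℂ V] [FiniteDimensional ℂ V] [Nontrivial V],
      Module.finrank ℂ V = n → ∀ ρ : A →* Module.End ℂ V, ρ h0 = -1 →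
      ∃ (W : Type) (_ : AddCommGroup W) (_ : Module ℂ W) (_ : FiniteDimensional ℂ W)
        (_ : Nontrivial W) (ρ' : A →* Module.End ℂ W), ρ' h0 = -1 ∧
          ∀ c ∈ C, ρ' c = 1 ∨ ρ' c = -1 := by
  induction n using Nat.strong_induction_on with
  | _ n ih =>
    intro V _ _ _ _ hn ρ hρ
    by_cases hall : ∀ c ∈ C, ρ c = 1 ∨ ρ c = -1
    · exact ⟨V, inferInstance, inferInstance, inferInstance, inferInstance, ρ, hρ, hall⟩
    · push Not at hall
      obtain ⟨c, hcC, hc1, hc2⟩ := hall
      have hcc : ∀ x, ρ c (ρ c x) = x := by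
        intro x
        have : (ρ c * ρ c) x = x := by rw [← map_mul, hC2 c hcC, map_one]; rfl
        exact this
      let W : Submodule ℂ V := LinearMap.ker (ρ c - 1)
      have hmem : ∀ x, x ∈ W ↔ ρ c x = x := by
        intro x
        rw [LinearMap.mem_ker, LinearMap.sub_apply, sub_eq_zero]
        rfl
      have hW : ∀ a, ∀ x ∈ W, ρ a x ∈ W := by
        intro a x hx
        rw [hmem] at hx ⊢
        have : (ρ c * ρ a) x = (ρ a * ρ c) x := by rw [← map_mul, ← map_mul, hC c hcC]
        change ρ c (ρ a x) = ρ a (ρ c x) at this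
        rw [this, hx]
      have hWne : Nontrivial W := by
        have : ∃ v, ρ c v ≠ -v := by
          by_contra hcon
          push Not at hcon
          exact hc2 (LinearMap.ext hcon)
        obtain ⟨v, hv⟩ := this
        refine ⟨⟨⟨v + ρ c v, ?_⟩, 0, ?_⟩⟩
        · rw [hmem, map_add, hcc, add_comm]
        · intro h
          apply hv
          have := congrArg Subtype.val h
          change v + ρ c v = 0 at this
          exact eq_neg_of_add_eq_zero_right this
      have hlt : Module.finrank ℂ W < n := by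
        rw [← hn]
        apply Submodule.finrank_lt
        intro htop
        apply hc1
        ext x
        have : x ∈ W := by rw [htop]; trivial
        exact (hmem x).1 this
      refine ih _ hlt W rfl (restrictRep ρ W hW) ?_
      ext x
      rw [restrictRep_coe, hρ]
      rfl

theorem exists_isotypic' {A : Type} [Group A] (C : Set A) (hC : ∀ c ∈ C, ∀ a, c * a = a * c)
    (hC2 : ∀ c ∈ C, c * c = 1) (h0 : A) (hh0 : h0 ∈ C) (V : Type) [AddCommGroup V] [Module ℂ V]
    [FiniteDimensional ℂ V] (ρ : A →* Module.End ℂ V) (hρ : ρ h0 ≠ 1) :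
    ∃ (W : Type) (_ : AddCommGroup W) (_ : Module ℂ W) (_ : FiniteDimensional ℂ W)
      (_ : Nontrivial W) (ρ' : A →* Module.End ℂ W), ρ' h0 = -1 ∧
        ∀ c ∈ C, ρ' c = 1 ∨ ρ' c = -1 := by
  have hcc : ∀ x, ρ h0 (ρ h0 x) = x := by
    intro x
    have : (ρ h0 * ρ h0) x = x := by rw [← map_mul, hC2 h0 hh0, map_one]; rfl
    exact this
  let W : Submodule ℂ V := LinearMap.ker (ρ h0 + 1)
  have hmem : ∀ x, x ∈ W ↔ ρ h0 x = -x := by
    intro x
    rw [LinearMap.mem_ker, LinearMap.add_apply, ← eq_neg_iff_add_eq_zero]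
    rfl
  have hW : ∀ a, ∀ x ∈ W, ρ a x ∈ W := by
    intro a x hx
    rw [hmem] at hx ⊢
    have : (ρ h0 * ρ a) x = (ρ a * ρ h0) x := by rw [← map_mul, ← map_mul, hC h0 hh0]
    change ρ h0 (ρ a x) = ρ a (ρ h0 x) at this
    rw [this, hx, map_neg]
  have hWne : Nontrivial W := by
    have : ∃ v, ρ h0 v ≠ v := by
      by_contra hcon
      push Not at hcon
      exact hρ (LinearMap.ext hcon)
    obtain ⟨v, hv⟩ := this
    refine ⟨⟨⟨v - ρ h0 v, ?_⟩, 0, ?_⟩⟩
    · rw [hmem, map_sub, hcc, neg_sub]
    · intro h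
      apply hv
      have := congrArg Subtype.val h
      change v - ρ h0 v = 0 at this
      exact (sub_eq_zero.1 this).symm
  refine exists_isotypic C hC hC2 h0 _ W rfl (restrictRep ρ W hW) ?_
  ext x
  rw [restrictRep_coe]
  exact (hmem x).1 x.2

/-- The basis vectors of `R`. -/
noncomputable def e (j : ℕ) : R := Finsupp.single j 1

theorem e_mul_self (j : ℕ) : e j * e j = e j := by
  ext i
  rw [Finsupp.mul_apply, e, Finsupp.single_apply]
  split_ifs <;> simp

theorem e_mul_ne {i j : ℕ} (h : i ≠ j) : e i * e j = 0 := by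
  ext k
  rw [Finsupp.mul_apply, e, e, Finsupp.single_apply, Finsupp.single_apply]
  split_ifs with h1 h2
  · exact absurd (h1.trans h2.symm) h
  · simp
  · simp
  · simp

theorem heis_finite (W : Type) [AddCommGroup W] [Module ℂ W] [FiniteDimensional ℂ W]
    [Nontrivial W] (ρ : Heis →* Module.End ℂ W) : {j | ρ ⟨0, 0, e j⟩ = -1}.Finite := by
  set S : Set ℕ := {j | ρ ⟨0, 0, e j⟩ = -1} with hS
  let X : ℕ → Module.End ℂ W := fun j => ρ ⟨e j, 0, 0⟩
  let Y : ℕ → Module.End ℂ W := fun j => ρ ⟨0, e j, 0⟩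
  have hXX : ∀ j, X j * X j = 1 := by
    intro j
    have : (⟨e j, 0, 0⟩ : Heis) * ⟨e j, 0, 0⟩ = 1 := by
      ext1
      · exact R_add_self _
      · simp
      · simp
    change ρ _ * ρ _ = 1
    rw [← map_mul, this, map_one]
  have hYY : ∀ j, Y j * Y j = 1 := by
    intro j
    have : (⟨0, e j, 0⟩ : Heis) * ⟨0, e j, 0⟩ = 1 := by
      ext1
      · simp
      · exact R_add_self _
      · simp
    change ρ _ * ρ _ = 1
    rw [← map_mul, this, map_one]
  have hcomm : ∀ i j, i ≠ j → Y j * X i = X i * Y j := by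
    intro i j hij
    change ρ _ * ρ _ = ρ _ * ρ _
    rw [← map_mul, ← map_mul]
    congr 1
    ext1
    · simp
    · simp
    · simp only [Heis.mul_z, e_mul_ne hij.symm]
      simp
  have hanti : ∀ j ∈ S, Y j * X j = -(X j * Y j) := by
    intro j hj
    have h1 : (⟨0, e j, 0⟩ : Heis) * ⟨e j, 0, 0⟩ = ⟨e j, 0, 0⟩ * ⟨0, e j, 0⟩ * ⟨0, 0, e j⟩ := by
      ext1
      · simp
      · simp
      · simp only [Heis.mul_z, e_mul_self]
        simp
    change ρ _ * ρ _ = _
    rw [← map_mul, h1, map_mul, map_mul, hj]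
    simp [X, Y]
  have htr : ∀ i j, i ≠ j → j ∈ S → LinearMap.trace ℂ W (X i * X j) = 0 := by
    intro i j hij hj
    have h1 : Y j * (X i * X j) * Y j = -(X i * X j) := by
      calc Y j * (X i * X j) * Y j = (Y j * X i) * X j * Y j := by noncomm_ring
        _ = X i * (Y j * X j) * Y j := by rw [hcomm i j hij]; noncomm_ring
        _ = -(X i * X j) * (Y j * Y j) := by rw [hanti j hj]; noncomm_ring
        _ = -(X i * X j) := by rw [hYY, mul_one]
    have h2 : LinearMap.trace ℂ W (Y j * (X i * X j) * Y j) = LinearMap.trace ℂ W (X i * X j) := by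
      rw [LinearMap.trace_mul_comm, ← mul_assoc, hYY, one_mul]
    rw [h1, map_neg] at h2
    have h3 : 2 * LinearMap.trace ℂ W (X i * X j) = 0 := by linear_combination -h2
    simpa using h3
  have hlin : LinearIndependent ℂ (fun j : S => X j) := by
    rw [linearIndependent_iff']
    intro s g hg j hj
    have h1 := congrArg (fun f => LinearMap.trace ℂ W (f * X j)) hg
    simp only [Finset.sum_mul, zero_mul, map_zero, map_sum, smul_mul_assoc, map_smul] at h1
    rw [Finset.sum_eq_single j] at h1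
    · rw [hXX, LinearMap.trace_one, smul_eq_mul] at h1
      have h2 : (Module.finrank ℂ W : ℂ) ≠ 0 := by
        exact_mod_cast (Module.finrank_pos (R := ℂ) (M := W)).ne'
      exact (mul_eq_zero.1 h1).resolve_right h2
    · intro i _ hij
      rw [htr i j (fun h => hij (Subtype.ext h)) j.2, smul_zero]
    · intro h
      exact absurd hj h
  have := hlin.finite
  exact Set.toFinite S

end Q4.Stab
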